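import Pool.Agent.K6.H34.TQ.Stm

/-!
# Project TQ, piece COMB6: the largest unlinked set has `12` elements

The `30` types are covered by `12` linked cliques: the `27` nonzero types by nine triangles (one type of each
class), and the three zero types.
-/

set_option autoImplicit false

namespace Pool.Agent.K6.H43.TQ

open Finset Pool.Agent.K6.H34.TQ

/-- the number of a type -/
def code (i : Fin 3 × ((Bool × Bool) × (Bool × Bool)) × ((Bool × Bool) × (Bool × Bool))) : ℕ :=
  [i.2.1.1.1, i.2.1.1.2, i.2.1.2.1, i.2.1.2.2, i.2.2.1.1, i.2.2.1.2, i.2.2.2.1, i.2.2.2.2].foldl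
    (fun r b => 2 * r + b.toNat) i.1.val

/-- the cliques -/
def groups : List (List ℕ) := [[3, 288, 602], [12, 385, 592], [15, 292, 576], [48, 421, 514], [60, 384, 522], [192, 261, 536], [195, 416, 520], [240, 260, 578], [255, 257, 528], [0], [256], [512]]

/-- the number of the clique -/
def grp (i : Fin 3 × ((Bool × Bool) × (Bool × Bool)) × ((Bool × Bool) × (Bool × Bool))) : Fin 12 :=
  Fin.ofNat 12 (groups.findIdx (fun t => t.contains (code i)))

/-- `L6` for the underlying triples -/
def L (i i' : Fin 3 × ((Bool × Bool) × (Bool × Bool)) × ((Bool × Bool) × (Bool × Bool))) : Bool :=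
  xor (br i'.2.2.1 i.2.1.1) (br i'.2.2.2 i.2.1.2)

set_option synthInstance.maxSize 100000 in
theorem key : ∀ i : Fin 3 × ((Bool × Bool) × (Bool × Bool)) × ((Bool × Bool) × (Bool × Bool)),
    A6 i.1 i.2.1 i.2.2 = true →
    ∀ j : Fin 3 × ((Bool × Bool) × (Bool × Bool)) × ((Bool × Bool) × (Bool × Bool)),
      A6 j.1 j.2.1 j.2.2 = true → grp i = grp j → L i j = L j i → i = j := by
  decide +kernel

theorem comb6 : COMB6 := by
  intro U hU
  have h : U.card ≤ (univ : Finset (Fin 12)).card := by
    apply Finset.card_le_card_of_injOn (fun i : I6 => grp i.1)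
    · intro i _
      exact mem_univ _
    · intro i hi j hj hij
      exact Subtype.ext (key i.1 i.2 j.1 j.2 hij (hU i hi j hj))
  simpa using h

end Pool.Agent.K6.H43.TQ
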